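import Mathlib

/-!
# Proportional sequences of arbitrarily large length

For every `w ≥ 1` there is a proportional sequence of length `2048 w²`.
-/

set_option autoImplicit false

namespace Pool.Agent.Results.MP_0132f6_co.InfiniteFamily

/-! ### Definitions -/

/-- The 3-term progressions `(a, a+d, a+2d)`, `d ≥ 1`, in `{0, …, n-1}`, coded by `(a, d)`. -/
def progs (n : ℕ) : Finset (ℕ × ℕ) :=
  (Finset.range n ×ˢ Finset.range n).filter fun p => 1 ≤ p.2 ∧ p.1 + 2 * p.2 < n

/-- The type of a progression. -/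
def ptype (x : ℕ → Bool) (p : ℕ × ℕ) : Bool × Bool × Bool :=
  (x p.1, x (p.1 + p.2), x (p.1 + 2 * p.2))

/-- The word `x_0 ⋯ x_{n-1}` is proportional: each of the eight types is the type of exactly
one eighth of the progressions. -/
def Proportional (n : ℕ) (x : ℕ → Bool) : Prop :=
  ∀ t : Bool × Bool × Bool, 8 * ((progs n).filter fun p => ptype x p = t).card = (progs n).card

/-! ### Signs -/

/-- the sign of a letter -/
def sg (b : Bool) : ℤ := if b = true then -1 else 1

lemma sg_not (b : Bool) : sg (!b) = - sg b := by cases b <;> rfl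

lemma sg_sq (b : Bool) : sg b * sg b = 1 := by cases b <;> rfl

lemma mem_progs {n : ℕ} {p : ℕ × ℕ} : p ∈ progs n ↔ 1 ≤ p.2 ∧ p.1 + 2 * p.2 < n := by
  unfold progs
  rw [Finset.mem_filter, Finset.mem_product, Finset.mem_range, Finset.mem_range]
  omega

lemma sum_rev (n : ℕ) (f : ℕ × ℕ → ℤ) :
    ∑ p ∈ progs n, f p = ∑ p ∈ progs n, f (n - 1 - p.1 - 2 * p.2, p.2) := by
  apply Finset.sum_nbij' (fun p => (n - 1 - p.1 - 2 * p.2, p.2))
    (fun p => (n - 1 - p.1 - 2 * p.2, p.2))
  · intro p hp; rw [mem_progs] at hp ⊢; simp only; omega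
  · intro p hp; rw [mem_progs] at hp ⊢; simp only; omega
  · intro p hp; rw [mem_progs] at hp; ext <;> simp only; omega
  · intro p hp; rw [mem_progs] at hp; ext <;> simp only; omega
  · intro p hp
    rw [mem_progs] at hp
    congr 1
    ext <;> simp only; omega

/-- If the seven correlation sums vanish, the word is proportional. -/
lemma prop_of_sums (n : ℕ) (x : ℕ → Bool)
    (h1 : ∑ p ∈ progs n, sg (x p.1) = 0)
    (h2 : ∑ p ∈ progs n, sg (x (p.1 + p.2)) = 0)
    (h3 : ∑ p ∈ progs n, sg (x (p.1 + 2 * p.2)) = 0)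
    (h12 : ∑ p ∈ progs n, sg (x p.1) * sg (x (p.1 + p.2)) = 0)
    (h13 : ∑ p ∈ progs n, sg (x p.1) * sg (x (p.1 + 2 * p.2)) = 0)
    (h23 : ∑ p ∈ progs n, sg (x (p.1 + p.2)) * sg (x (p.1 + 2 * p.2)) = 0)
    (h123 : ∑ p ∈ progs n, sg (x p.1) * sg (x (p.1 + p.2)) * sg (x (p.1 + 2 * p.2)) = 0) :
    Proportional n x := by
  rintro ⟨t1, t2, t3⟩
  have e1 : ∀ p : ℕ × ℕ, (8 : ℤ) * (if ptype x p = (t1, t2, t3) then 1 else 0) =
      1 + sg t1 * sg (x p.1) + sg t2 * sg (x (p.1 + p.2)) + sg t3 * sg (x (p.1 + 2 * p.2)) +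
      sg t1 * sg t2 * (sg (x p.1) * sg (x (p.1 + p.2))) +
      sg t1 * sg t3 * (sg (x p.1) * sg (x (p.1 + 2 * p.2))) +
      sg t2 * sg t3 * (sg (x (p.1 + p.2)) * sg (x (p.1 + 2 * p.2))) +
      sg t1 * sg t2 * sg t3 * (sg (x p.1) * sg (x (p.1 + p.2)) * sg (x (p.1 + 2 * p.2))) := by
    intro p
    unfold ptype
    generalize x p.1 = u
    generalize x (p.1 + p.2) = v
    generalize x (p.1 + 2 * p.2) = r
    revert t1 t2 t3 u v r
    decide
  have e2 : (8 : ℤ) * (((progs n).filter fun p => ptype x p = (t1, t2, t3)).card : ℤ) =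
      (progs n).card := by
    rw [Finset.card_filter]
    push_cast
    rw [Finset.mul_sum, Finset.sum_congr rfl fun p _ => e1 p]
    simp only [Finset.sum_add_distrib, ← Finset.mul_sum, h1, h2, h3, h12, h13, h23, h123]
    simp
  exact_mod_cast e2

/-! ### The one-dimensional sums -/

/-- prefix sums -/
def Y (z : ℕ → ℤ) (j : ℕ) : ℤ := ∑ i ∈ Finset.range j, z i

lemma Y_succ (z : ℕ → ℤ) (j : ℕ) : Y z (j + 1) = Y z j + z j := by
  unfold Y; rw [Finset.sum_range_succ]

lemma Y_zero (z : ℕ → ℤ) : Y z 0 = 0 := rfl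

/-- the first-letter sum -/
lemma sum_first (n : ℕ) (z : ℕ → ℤ) :
    ∑ p ∈ progs n, z p.1 = ∑ a ∈ Finset.range n, (((n - 1 - a) / 2 : ℕ) : ℤ) * z a := by
  unfold progs
  rw [Finset.sum_filter, Finset.sum_product]
  apply Finset.sum_congr rfl
  intro a ha
  rw [Finset.mem_range] at ha
  simp only
  rw [← Finset.sum_filter, Finset.sum_const, nsmul_eq_mul]
  congr 1
  have : ((Finset.range n).filter fun d => 1 ≤ d ∧ a + 2 * d < n) =
      Finset.Ico 1 ((n - 1 - a) / 2 + 1) := by
    ext d
    rw [Finset.mem_filter, Finset.mem_range, Finset.mem_Ico]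
    omega
  simp only [this, Nat.card_Ico, Nat.add_sub_cancel]

/-- the first-middle sum -/
lemma sum_mid (n : ℕ) (z : ℕ → ℤ) :
    ∑ p ∈ progs n, z p.1 * z (p.1 + p.2) =
      ∑ b ∈ Finset.range n, z b * (Y z b - Y z (2 * b + 1 - n)) := by
  have e1 : ∀ b ∈ Finset.range n, z b * (Y z b - Y z (2 * b + 1 - n)) =
      ∑ a ∈ Finset.Ico (2 * b + 1 - n) b, z b * z a := by
    intro b hb
    rw [Finset.mem_range] at hb
    rw [← Finset.mul_sum, Finset.sum_Ico_eq_sub _ (by omega)]
    rfl
  rw [Finset.sum_congr rfl e1, Finset.sum_sigma']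
  apply Finset.sum_nbij' (fun p => (⟨p.1 + p.2, p.1⟩ : (_ : ℕ) × ℕ))
    (fun s => (s.2, s.1 - s.2))
  · intro p hp
    rw [mem_progs] at hp
    rw [Finset.mem_sigma, Finset.mem_range, Finset.mem_Ico]
    simp only
    omega
  · rintro ⟨b, a⟩ hs
    rw [Finset.mem_sigma, Finset.mem_range, Finset.mem_Ico] at hs
    rw [mem_progs]
    simp only at hs ⊢
    omega
  · intro p hp
    ext <;> simp
  · rintro ⟨b, a⟩ hs
    rw [Finset.mem_sigma, Finset.mem_range, Finset.mem_Ico] at hs
    simp only at hs ⊢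
    congr 1
    omega
  · intro p hp
    simp only
    ring

/-- sum over the even, resp. odd, indices -/
def Par (z : ℕ → ℤ) (r n : ℕ) : ℤ := ∑ i ∈ (Finset.range n).filter (fun i => i % 2 = r), z i

lemma Par_succ (z : ℕ → ℤ) (r n : ℕ) :
    Par z r (n + 1) = Par z r n + if n % 2 = r then z n else 0 := by
  unfold Par
  rw [Finset.range_add_one, Finset.filter_insert]
  split_ifs with h
  · rw [Finset.sum_insert (by simp)]; ring
  · ring

/-- the first-last sum -/
lemma sum_last (n : ℕ) (z : ℕ → ℤ) (hz : ∀ i, z i * z i = 1) :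
    2 * ∑ p ∈ progs n, z p.1 * z (p.1 + 2 * p.2) = Par z 0 n ^ 2 + Par z 1 n ^ 2 - n := by
  have e0 : ∑ p ∈ progs n, z p.1 * z (p.1 + 2 * p.2) =
      ∑ c ∈ Finset.range n, z c * Par z (c % 2) c := by
    have e1 : ∀ c ∈ Finset.range n, z c * Par z (c % 2) c =
        ∑ a ∈ (Finset.range c).filter (fun i => i % 2 = c % 2), z c * z a := by
      intro c _
      rw [← Finset.mul_sum]; rfl
    rw [Finset.sum_congr rfl e1, Finset.sum_sigma']
    apply Finset.sum_nbij' (fun p => (⟨p.1 + 2 * p.2, p.1⟩ : (_ : ℕ) × ℕ))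
      (fun s => (s.2, (s.1 - s.2) / 2))
    · intro p hp
      rw [mem_progs] at hp
      rw [Finset.mem_sigma, Finset.mem_range, Finset.mem_filter, Finset.mem_range]
      simp only
      omega
    · rintro ⟨c, a⟩ hs
      rw [Finset.mem_sigma, Finset.mem_range, Finset.mem_filter, Finset.mem_range] at hs
      rw [mem_progs]
      simp only at hs ⊢
      omega
    · intro p hp
      ext <;> simp
    · rintro ⟨c, a⟩ hs
      rw [Finset.mem_sigma, Finset.mem_range, Finset.mem_filter, Finset.mem_range] at hs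
      simp only at hs ⊢
      congr 1
      omega
    · intro p hp
      simp only
      ring
  rw [e0]
  clear e0
  induction n with
  | zero => simp [Par]
  | succ n ih =>
    rw [Finset.sum_range_succ, mul_add, ih, Par_succ, Par_succ]
    have h1 := hz n
    rcases Nat.mod_two_eq_zero_or_one n with h | h
    · simp only [h]
      norm_num
      linear_combination (-1) * h1
    · simp only [h]
      norm_num
      linear_combination (-1) * h1

lemma sum_sq (n : ℕ) (z : ℕ → ℤ) (hz : ∀ i, z i * z i = 1) :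
    2 * ∑ b ∈ Finset.range n, z b * Y z b = Y z n ^ 2 - n := by
  induction n with
  | zero => simp [Y]
  | succ n ih =>
    rw [Finset.sum_range_succ, mul_add, ih, Y_succ]
    have h1 := hz n
    push_cast
    linear_combination (-1) * h1

/-! ### Antisymmetric words -/

section anti

variable {h : ℕ} {z : ℕ → ℤ}

lemma Y_refl (anti : ∀ i < 2 * h, z (2 * h - 1 - i) = - z i) (j : ℕ) (hj : j ≤ 2 * h) :
    Y z (2 * h - j) = Y z j + Y z (2 * h) := by
  induction j with
  | zero => simp [Y_zero]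
  | succ j ih =>
    have h1 := ih (by omega)
    have h2 := anti j (by omega)
    have h3 : Y z (2 * h - j) = Y z (2 * h - (j + 1)) + z (2 * h - 1 - j) := by
      rw [show 2 * h - j = (2 * h - (j + 1)) + 1 by omega, Y_succ]
      congr 2
      omega
    rw [Y_succ]
    linarith

lemma Y_full (anti : ∀ i < 2 * h, z (2 * h - 1 - i) = - z i) : Y z (2 * h) = 0 := by
  have h1 := Y_refl anti (2 * h) le_rfl
  rw [Nat.sub_self, Y_zero] at h1
  linarith

lemma split_sum (f : ℕ → ℤ) :
    ∑ a ∈ Finset.range (2 * h), f a = ∑ a ∈ Finset.range h, (f a + f (2 * h - 1 - a)) := by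
  rw [two_mul, Finset.sum_range_add, Finset.sum_add_distrib]
  congr 1
  rw [← Finset.sum_range_reflect (fun a => f (h + a))]
  apply Finset.sum_congr rfl
  intro a ha
  rw [Finset.mem_range] at ha
  congr 1
  omega

/-- the reduction to one-dimensional sums over the first half -/
theorem reduction {x : ℕ → Bool} {k : ℕ} (hk : h = 2 * k) (hx : ∀ i, z i = sg (x i))
    (anti : ∀ i < 2 * h, z (2 * h - 1 - i) = - z i)
    (c1 : ∑ a ∈ Finset.range h, ((h : ℤ) - 1 - 2 * ((a / 2 : ℕ) : ℤ)) * z a = 0)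
    (c2 : ∑ j ∈ Finset.range k, Y z (2 * j + 1) * (z j + z (h - 1 - j)) = h)
    (c3 : (∑ a ∈ Finset.range h, (-1) ^ a * z a) ^ 2 = (h : ℤ)) :
    Proportional (2 * h) x := by
  have hz : ∀ i, z i * z i = 1 := fun i => by rw [hx]; exact sg_sq _
  have hfull := Y_full anti
  have hfirst : ∑ p ∈ progs (2 * h), z p.1 = 0 := by
    rw [sum_first, split_sum, ← c1]
    apply Finset.sum_congr rfl
    intro a ha
    rw [Finset.mem_range] at ha
    rw [anti a (by omega)]
    have e1 : (2 * h - 1 - a) / 2 = h - 1 - a / 2 := by omega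
    have e2 : (2 * h - 1 - (2 * h - 1 - a)) / 2 = a / 2 := by congr 1; omega
    rw [e1, e2]
    have e3 : ((h - 1 - a / 2 : ℕ) : ℤ) = (h : ℤ) - 1 - ((a / 2 : ℕ) : ℤ) := by omega
    rw [e3]
    ring
  have hrev : ∀ p ∈ progs (2 * h), z (2 * h - 1 - p.1 - 2 * p.2) = - z (p.1 + 2 * p.2) ∧
      z (2 * h - 1 - p.1 - 2 * p.2 + p.2) = - z (p.1 + p.2) ∧
      z (2 * h - 1 - p.1 - 2 * p.2 + 2 * p.2) = - z p.1 := by
    intro p hp
    rw [mem_progs] at hp
    refine ⟨?_, ?_, ?_⟩
    · rw [← anti (p.1 + 2 * p.2) (by omega)]; congr 1; omega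
    · rw [← anti (p.1 + p.2) (by omega)]; congr 1; omega
    · rw [← anti p.1 (by omega)]; congr 1; omega
  have hthird : ∑ p ∈ progs (2 * h), z (p.1 + 2 * p.2) = 0 := by
    have e := sum_rev (2 * h) (fun p => z (p.1 + 2 * p.2))
    rw [e, Finset.sum_congr rfl (fun p hp => (hrev p hp).2.2), Finset.sum_neg_distrib, hfirst]
    simp
  have hsecond : ∑ p ∈ progs (2 * h), z (p.1 + p.2) = 0 := by
    have e := sum_rev (2 * h) (fun p => z (p.1 + p.2))
    rw [Finset.sum_congr rfl (g := fun p => -z (p.1 + p.2)) (fun p hp => (hrev p hp).2.1),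
      Finset.sum_neg_distrib] at e
    linarith
  have hmid : ∑ p ∈ progs (2 * h), z p.1 * z (p.1 + p.2) = 0 := by
    rw [sum_mid]
    have e1 := sum_sq (2 * h) z hz
    rw [hfull] at e1
    have e2 : ∑ b ∈ Finset.range (2 * h), z b * Y z (2 * b + 1 - 2 * h) =
        - (h : ℤ) := by
      rw [show 2 * h = h + h by ring, Finset.sum_range_add]
      have e3 : ∑ b ∈ Finset.range h, z b * Y z (2 * b + 1 - (h + h)) = 0 := by
        apply Finset.sum_eq_zero
        intro b hb
        rw [Finset.mem_range] at hb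
        rw [show 2 * b + 1 - (h + h) = 0 by omega, Y_zero, mul_zero]
      rw [e3, zero_add]
      have e4 : ∑ j ∈ Finset.range h, z (h + j) * Y z (2 * (h + j) + 1 - (h + h)) =
          ∑ j ∈ Finset.range h, - (z (h - 1 - j) * Y z (2 * j + 1)) := by
        apply Finset.sum_congr rfl
        intro j hj
        rw [Finset.mem_range] at hj
        rw [show 2 * (h + j) + 1 - (h + h) = 2 * j + 1 by omega]
        have := anti (h - 1 - j) (by omega)
        rw [show 2 * h - 1 - (h - 1 - j) = h + j by omega] at this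
        rw [this]; ring
      rw [e4, Finset.sum_neg_distrib]
      congr 1
      rw [← c2]
      nth_rw 1 [hk]
      rw [split_sum]
      apply Finset.sum_congr rfl
      intro j hj
      rw [Finset.mem_range] at hj
      have e5 := Y_refl anti (2 * j + 1) (by omega)
      rw [hfull, add_zero] at e5
      rw [show h - 1 - (2 * k - 1 - j) = j by omega,
        show 2 * (2 * k - 1 - j) + 1 = 2 * h - (2 * j + 1) by omega, e5]
      ring
    have e6 : ∑ b ∈ Finset.range (2 * h), z b * (Y z b - Y z (2 * b + 1 - 2 * h)) =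
        ∑ b ∈ Finset.range (2 * h), z b * Y z b -
          ∑ b ∈ Finset.range (2 * h), z b * Y z (2 * b + 1 - 2 * h) := by
      rw [← Finset.sum_sub_distrib]
      apply Finset.sum_congr rfl
      intro b _
      ring
    rw [e6, e2]
    push_cast at e1
    linarith
  have hmid' : ∑ p ∈ progs (2 * h), z (p.1 + p.2) * z (p.1 + 2 * p.2) = 0 := by
    have e := sum_rev (2 * h) (fun p => z (p.1 + p.2) * z (p.1 + 2 * p.2))
    rw [e, ← hmid]
    apply Finset.sum_congr rfl
    intro p hp
    obtain ⟨r1, r2, r3⟩ := hrev p hp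
    simp only
    rw [r2, r3]; ring
  have hlast : ∑ p ∈ progs (2 * h), z p.1 * z (p.1 + 2 * p.2) = 0 := by
    have e1 := sum_last (2 * h) z hz
    have e2 : Par z 0 (2 * h) + Par z 1 (2 * h) = Y z (2 * h) := by
      have : ∀ n, Par z 0 n + Par z 1 n = Y z n := by
        intro n
        induction n with
        | zero => simp [Par, Y]
        | succ n ih =>
          rw [Par_succ, Par_succ, Y_succ, ← ih]
          rcases Nat.mod_two_eq_zero_or_one n with h | h <;> simp [h] <;> ring
      exact this _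
    have e3 : Par z 0 (2 * h) - Par z 1 (2 * h) =
        2 * ∑ a ∈ Finset.range h, (-1) ^ a * z a := by
      have : ∀ n, Par z 0 n - Par z 1 n = ∑ a ∈ Finset.range n, (-1) ^ a * z a := by
        intro n
        induction n with
        | zero => simp [Par]
        | succ n ih =>
          rw [Par_succ, Par_succ, Finset.sum_range_succ, ← ih]
          rcases Nat.mod_two_eq_zero_or_one n with h | h
          · simp [h, Even.neg_one_pow (Nat.even_iff.mpr h)]; ring
          · simp [h, Odd.neg_one_pow (Nat.odd_iff.mpr h)]; ring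
      rw [this, split_sum, Finset.mul_sum]
      apply Finset.sum_congr rfl
      intro a ha
      rw [Finset.mem_range] at ha
      rw [anti a (by omega)]
      have e4 : ((-1 : ℤ)) ^ (2 * h - 1 - a) = - (-1) ^ a := by
        have e5 : ((-1 : ℤ)) ^ (2 * h - 1 - a) * (-1) ^ a = -1 := by
          rw [← pow_add, show 2 * h - 1 - a + a = 2 * (h - 1) + 1 by omega, pow_succ, pow_mul]
          simp
        have e6 : ((-1 : ℤ)) ^ a * (-1) ^ a = 1 := by
          rw [← mul_pow]; simp
        linear_combination ((-1 : ℤ)) ^ a * e5 - ((-1 : ℤ)) ^ (2 * h - 1 - a) * e6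
      rw [e4]; ring
    rw [hfull] at e2
    have e7 : Par z 1 (2 * h) = - Par z 0 (2 * h) := by linarith
    have e8 : Par z 0 (2 * h) = ∑ a ∈ Finset.range h, (-1) ^ a * z a := by linarith
    rw [e7, e8, neg_sq, c3] at e1
    push_cast at e1
    linarith
  have htriple : ∑ p ∈ progs (2 * h), z p.1 * z (p.1 + p.2) * z (p.1 + 2 * p.2) = 0 := by
    have e := sum_rev (2 * h) (fun p => z p.1 * z (p.1 + p.2) * z (p.1 + 2 * p.2))
    have e1 : ∑ p ∈ progs (2 * h), z (2 * h - 1 - p.1 - 2 * p.2) *
        z (2 * h - 1 - p.1 - 2 * p.2 + p.2) * z (2 * h - 1 - p.1 - 2 * p.2 + 2 * p.2) =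
        ∑ p ∈ progs (2 * h), -(z p.1 * z (p.1 + p.2) * z (p.1 + 2 * p.2)) := by
      apply Finset.sum_congr rfl
      intro p hp
      obtain ⟨r1, r2, r3⟩ := hrev p hp
      rw [r1, r2, r3]; ring
    simp only at e
    rw [e1, Finset.sum_neg_distrib] at e
    linarith
  simp only [hx] at hfirst hsecond hthird hmid hmid' hlast htriple
  exact prop_of_sums (2 * h) x hfirst hsecond hthird hmid hlast hmid' htriple

end anti

/-! ### The word -/

/-- block types -/
inductive Ty
  | al | be | ga | de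
  deriving DecidableEq

instance : Fintype Ty := ⟨{Ty.al, Ty.be, Ty.ga, Ty.de}, by intro t; cases t <;> decide⟩

/-- the letter at offset `r < 64` of a block of a given type -/
def vb : Ty → ℕ → Bool
  | Ty.al, r => xor (decide (8 ≤ r % 16)) (decide (16 ≤ r % 32))
  | Ty.be, r => if r < 32 then xor (decide (8 ≤ r % 16)) (decide (16 ≤ r % 32))
      else decide (r % 2 = 1)
  | Ty.ga, r => decide (8 ≤ r % 16)
  | Ty.de, r => !decide (8 ≤ r % 16)

/-- the type of the `q`-th block of the first half -/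
def ty (w q : ℕ) : Ty :=
  if q < 4 * w ^ 2 then Ty.al else if q < 4 * w ^ 2 + w then Ty.be else
  if q < 8 * w ^ 2 then Ty.al else if q < 12 * w ^ 2 then Ty.ga else Ty.de

/-- the first half of the word -/
def base (w a : ℕ) : Bool := vb (ty w (a / 64)) (a % 64)

/-- the word of length `2048 w²` -/
def word (w a : ℕ) : Bool :=
  if a < 1024 * w ^ 2 then base w a else !(base w (2 * (1024 * w ^ 2) - 1 - a))

lemma sum_blocks (K : ℕ) (f : ℕ → ℤ) :
    ∑ a ∈ Finset.range (64 * K), f a = ∑ q ∈ Finset.range K, ∑ i ∈ Finset.range 64, f (64 * q + i) := by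
  induction K with
  | zero => simp
  | succ K ih => rw [Finset.sum_range_succ, ← ih, mul_add, mul_one, Finset.sum_range_add]

/-- prefix sums inside a block -/
def SB (t : Ty) (i : ℕ) : ℤ := ∑ r ∈ Finset.range i, sg (vb t r)

lemma SB_full (t : Ty) : SB t 64 = 0 := by revert t; decide +kernel

/-- first moments of the blocks -/
def MB (t : Ty) : ℤ := ∑ r ∈ Finset.range 64, ((r / 2 : ℕ) : ℤ) * sg (vb t r)

lemma MB_val : MB Ty.al = 0 ∧ MB Ty.be = 0 ∧ MB Ty.ga = -128 ∧ MB Ty.de = 128 := by
  decide +kernel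

/-- alternating sums of the blocks -/
def OB (t : Ty) : ℤ := ∑ r ∈ Finset.range 64, (-1) ^ r * sg (vb t r)

lemma OB_val : OB Ty.al = 0 ∧ OB Ty.be = 32 ∧ OB Ty.ga = 0 ∧ OB Ty.de = 0 := by
  decide +kernel

/-- the interaction of blocks -/
def CB (t t' k1 k2 : Ty) : ℤ := ∑ i ∈ Finset.range 64,
  (if i < 32 then SB k1 (2 * i + 1) else SB k2 (2 * (i - 32) + 1)) *
    (sg (vb t i) + sg (vb t' (63 - i)))

lemma CB_one : ∀ k1 k2 : Ty, (k1 = Ty.al ∨ k1 = Ty.be) → (k2 = Ty.al ∨ k2 = Ty.be) →
    CB Ty.al Ty.de k1 k2 = 256 := by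
  decide +kernel

lemma CB_two : ∀ t k1 k2 : Ty, (t = Ty.al ∨ t = Ty.be) → (k1 = Ty.ga ∨ k1 = Ty.de) →
    (k2 = Ty.ga ∨ k2 = Ty.de) → CB t Ty.ga k1 k2 = 0 := by
  decide +kernel

section word

variable (w : ℕ)

lemma word_first {q i : ℕ} (hq : q < 16 * w ^ 2) (hi : i < 64) :
    word w (64 * q + i) = vb (ty w q) i := by
  unfold word base
  rw [if_pos (by omega), show (64 * q + i) / 64 = q by omega, show (64 * q + i) % 64 = i by omega]

lemma Y_block {q : ℕ} (hq : q ≤ 16 * w ^ 2) : Y (fun a => sg (word w a)) (64 * q) = 0 := by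
  unfold Y
  rw [sum_blocks]
  apply Finset.sum_eq_zero
  intro q' hq'
  rw [Finset.mem_range] at hq'
  rw [← SB_full (ty w q')]
  unfold SB
  apply Finset.sum_congr rfl
  intro i hi
  rw [Finset.mem_range] at hi
  rw [word_first w (by omega) hi]

lemma Y_inner {q i : ℕ} (hq : q < 16 * w ^ 2) (hi : i ≤ 64) :
    Y (fun a => sg (word w a)) (64 * q + i) = SB (ty w q) i := by
  unfold Y
  rw [Finset.sum_range_add]
  have h1 := Y_block w hq.le
  unfold Y at h1
  rw [h1, zero_add]
  unfold SB
  apply Finset.sum_congr rfl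
  intro r hr
  rw [Finset.mem_range] at hr
  rw [word_first w hq (by omega)]

lemma ico_const {F : ℕ → ℤ} {a b : ℕ} {c : ℤ} (hab : a ≤ b)
    (hF : ∀ q, a ≤ q → q < b → F q = c) : ∑ q ∈ Finset.Ico a b, F q = ((b : ℤ) - a) * c := by
  rw [Finset.sum_congr rfl (g := fun _ => c) (fun q hq => by
    rw [Finset.mem_Ico] at hq; exact hF q hq.1 hq.2)]
  rw [Finset.sum_const, Nat.card_Ico, nsmul_eq_mul]
  push_cast [hab]
  ring

lemma anti_word (i : ℕ) (hi : i < 2 * (1024 * w ^ 2)) :
    sg (word w (2 * (1024 * w ^ 2) - 1 - i)) = - sg (word w i) := by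
  unfold word
  rcases Nat.lt_or_ge i (1024 * w ^ 2) with h | h
  · rw [if_pos h, if_neg (by omega), sg_not]
    congr 3
    omega
  · rw [if_pos (by omega), if_neg (by omega), sg_not, neg_neg]

end word

theorem main (w : ℕ) (hw : 1 ≤ w) : Proportional (2 * (1024 * w ^ 2)) (word w) := by
  have hww : w ≤ w ^ 2 := by nlinarith
  set W := w ^ 2 with hW
  have hty1 : ∀ q, q < 4 * W → ty w q = Ty.al := fun q h => by
    unfold ty; rw [if_pos h]
  have hty2 : ∀ q, 4 * W ≤ q → q < 4 * W + w → ty w q = Ty.be := fun q h h' => by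
    unfold ty; rw [← hW, if_neg (by omega), if_pos (by omega)]
  have hty3 : ∀ q, 4 * W + w ≤ q → q < 8 * W → ty w q = Ty.al := fun q h h' => by
    unfold ty; rw [← hW, if_neg (by omega), if_neg (by omega), if_pos (by omega)]
  have hty4 : ∀ q, 8 * W ≤ q → q < 12 * W → ty w q = Ty.ga := fun q h h' => by
    unfold ty; rw [← hW, if_neg (by omega), if_neg (by omega), if_neg (by omega),
      if_pos (by omega)]
  have hty5 : ∀ q, 12 * W ≤ q → ty w q = Ty.de := fun q h => by
    unfold ty; rw [← hW, if_neg (by omega), if_neg (by omega), if_neg (by omega),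
      if_neg (by omega)]
  have hty12 : ∀ q, q < 8 * W → ty w q = Ty.al ∨ ty w q = Ty.be := by
    intro q hq
    rcases Nat.lt_or_ge q (4 * W) with h | h
    · exact Or.inl (hty1 q h)
    · rcases Nat.lt_or_ge q (4 * W + w) with h' | h'
      · exact Or.inr (hty2 q h h')
      · exact Or.inl (hty3 q h' hq)
  have hty45 : ∀ q, 8 * W ≤ q → ty w q = Ty.ga ∨ ty w q = Ty.de := by
    intro q hq
    rcases Nat.lt_or_ge q (12 * W) with h | h
    · exact Or.inl (hty4 q hq h)
    · exact Or.inr (hty5 q h)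
  -- sums over blocks
  have hseg : ∀ F : ℕ → ℤ, ∑ q ∈ Finset.range (16 * W), F q =
      ∑ q ∈ Finset.Ico 0 (4 * W), F q + ∑ q ∈ Finset.Ico (4 * W) (4 * W + w), F q +
      ∑ q ∈ Finset.Ico (4 * W + w) (8 * W), F q + ∑ q ∈ Finset.Ico (8 * W) (12 * W), F q +
      ∑ q ∈ Finset.Ico (12 * W) (16 * W), F q := by
    intro F
    rw [Finset.range_eq_Ico, Finset.sum_Ico_consecutive _ (by omega) (by omega),
      Finset.sum_Ico_consecutive _ (by omega) (by omega),
      Finset.sum_Ico_consecutive _ (by omega) (by omega),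
      Finset.sum_Ico_consecutive _ (by omega) (by omega)]
  obtain ⟨m1, m2, m3, m4⟩ := MB_val
  obtain ⟨o1, o2, o3, o4⟩ := OB_val
  apply reduction (z := fun a => sg (word w a)) (k := 512 * W) (by ring) (fun _ => rfl)
    (anti_word w)
  · -- c1
    rw [show 1024 * W = 64 * (16 * W) by ring, sum_blocks]
    have e1 : ∀ q ∈ Finset.range (16 * W), ∑ i ∈ Finset.range 64,
        (((64 * (16 * W) : ℕ) : ℤ) - 1 - 2 * (((64 * q + i) / 2 : ℕ) : ℤ)) *
          sg (word w (64 * q + i)) = -2 * MB (ty w q) := by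
      intro q hq
      rw [Finset.mem_range] at hq
      have e2 : ∀ i ∈ Finset.range 64,
          (((64 * (16 * W) : ℕ) : ℤ) - 1 - 2 * (((64 * q + i) / 2 : ℕ) : ℤ)) *
          sg (word w (64 * q + i)) = (((64 * (16 * W) : ℕ) : ℤ) - 1 - 64 * q) * sg (vb (ty w q) i) +
            (-2) * (((i / 2 : ℕ) : ℤ) * sg (vb (ty w q) i)) := by
        intro i hi
        rw [Finset.mem_range] at hi
        rw [word_first w hq hi, show (64 * q + i) / 2 = 32 * q + i / 2 by omega]
        push_cast
        ring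
      rw [Finset.sum_congr rfl e2, Finset.sum_add_distrib, ← Finset.mul_sum, ← Finset.mul_sum]
      have e3 := SB_full (ty w q)
      unfold SB at e3
      rw [e3]
      unfold MB
      ring
    rw [Finset.sum_congr rfl e1, hseg,
      ico_const (c := 0) (by omega) (fun q _ h => by rw [hty1 q h, m1]; rfl),
      ico_const (c := 0) (by omega) (fun q h h' => by rw [hty2 q h h', m2]; rfl),
      ico_const (c := 0) (by omega) (fun q h h' => by rw [hty3 q h h', m1]; rfl),
      ico_const (c := 256) (by omega) (fun q h h' => by rw [hty4 q h h', m3]; rfl),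
      ico_const (c := -256) (by omega) (fun q h h' => by rw [hty5 q h, m4]; rfl)]
    push_cast
    ring
  · -- c2
    rw [show 512 * W = 64 * (8 * W) by ring, sum_blocks]
    have e1 : ∀ q ∈ Finset.range (8 * W), ∑ i ∈ Finset.range 64,
        Y (fun a => sg (word w a)) (2 * (64 * q + i) + 1) *
          (sg (word w (64 * q + i)) + sg (word w (1024 * W - 1 - (64 * q + i)))) =
        CB (ty w q) (ty w (16 * W - 1 - q)) (ty w (2 * q)) (ty w (2 * q + 1)) := by
      intro q hq
      rw [Finset.mem_range] at hq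
      unfold CB
      apply Finset.sum_congr rfl
      intro i hi
      rw [Finset.mem_range] at hi
      rw [word_first w (by omega) hi,
        show 1024 * W - 1 - (64 * q + i) = 64 * (16 * W - 1 - q) + (63 - i) by omega,
        word_first w (by omega) (by omega)]
      congr 1
      rcases Nat.lt_or_ge i 32 with h | h
      · rw [if_pos h, show 2 * (64 * q + i) + 1 = 64 * (2 * q) + (2 * i + 1) by ring,
          Y_inner w (by omega) (by omega)]
      · rw [if_neg (by omega),
          show 2 * (64 * q + i) + 1 = 64 * (2 * q + 1) + (2 * (i - 32) + 1) by omega,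
          Y_inner w (by omega) (by omega)]
    rw [Finset.sum_congr rfl e1]
    rw [Finset.range_eq_Ico, ← Finset.sum_Ico_consecutive _ (show 0 ≤ 4 * W by omega)
      (show 4 * W ≤ 8 * W by omega),
      ico_const (c := 256) (by omega) (fun q _ h => by
        rw [hty1 q h, hty5 _ (by omega)]
        exact CB_one _ _ (hty12 _ (by omega)) (hty12 _ (by omega))),
      ico_const (c := 0) (by omega) (fun q h h' => by
        rw [hty4 (16 * W - 1 - q) (by omega) (by omega)]
        exact CB_two _ _ _ (hty12 _ (by omega)) (hty45 _ (by omega)) (hty45 _ (by omega)))]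
    rw [hW]
    push_cast
    ring
  · -- c3
    rw [show 1024 * W = 64 * (16 * W) by ring, sum_blocks]
    have e1 : ∀ q ∈ Finset.range (16 * W), ∑ i ∈ Finset.range 64,
        (-1) ^ (64 * q + i) * sg (word w (64 * q + i)) = OB (ty w q) := by
      intro q hq
      rw [Finset.mem_range] at hq
      unfold OB
      apply Finset.sum_congr rfl
      intro i hi
      rw [Finset.mem_range] at hi
      rw [word_first w hq hi, pow_add, pow_mul]
      norm_num
    rw [Finset.sum_congr rfl e1, hseg,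
      ico_const (c := 0) (by omega) (fun q _ h => by rw [hty1 q h, o1]),
      ico_const (c := 32) (by omega) (fun q h h' => by rw [hty2 q h h', o2]),
      ico_const (c := 0) (by omega) (fun q h h' => by rw [hty3 q h h', o1]),
      ico_const (c := 0) (by omega) (fun q h h' => by rw [hty4 q h h', o3]),
      ico_const (c := 0) (by omega) (fun q h h' => by rw [hty5 q h, o4])]
    push_cast
    rw [hW]
    push_cast
    ring

/-- **Proportional sequences of arbitrarily large length exist.** For every `w ≥ 1` there is a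
proportional 0-1 sequence of length `2048 w²`; in particular the set of lengths of proportional
sequences is infinite. -/
theorem result : (∀ w : ℕ, 1 ≤ w → ∃ x : ℕ → Bool, Proportional (2048 * w ^ 2) x) ∧
    {n : ℕ | 3 ≤ n ∧ ∃ x : ℕ → Bool, Proportional n x}.Infinite := by
  have h1 : ∀ w : ℕ, 1 ≤ w → ∃ x : ℕ → Bool, Proportional (2048 * w ^ 2) x := by
    intro w hw
    refine ⟨word w, ?_⟩
    have := main w hw
    rwa [show 2 * (1024 * w ^ 2) = 2048 * w ^ 2 by ring] at this
  refine ⟨h1, ?_⟩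
  rw [Set.infinite_iff_exists_gt]
  intro m
  have h2 : 1 ≤ (m + 1) ^ 2 := Nat.one_le_pow _ _ (by omega)
  exact ⟨2048 * (m + 1) ^ 2, ⟨by omega, h1 (m + 1) (by omega)⟩, by nlinarith⟩

end Pool.Agent.Results.MP_0132f6_co.InfiniteFamily
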